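import Pool.Agent.Lib_helper71.LSPM2.DEF4
import Pool.Agent.Lib_helper71.LSPM2.NT3

/-! LSP2, part M2: sums of `μ² / φ` over rough numbers (block SUM). -/

namespace Pool.Agent.LSP

open Pool.Agent.LEV Pool.Agent.LVB Pool.Agent.KSL
open Pool.Agent.FG61 (mu phi cc ff AA Lam)
open MeasureTheory Filter Topology

theorem sum_filter_RO {z X : ℕ} {y : ℝ} (hy0 : 0 ≤ y) (hy : y ≤ X) :
    (RO z X).filter (fun q : ℕ => (q : ℝ) ≤ y) = RO z ⌊y⌋₊ := by
  ext q
  rw [Finset.mem_filter, GDL_mem_RO, GDL_mem_RO, Nat.le_floor_iff hy0]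
  constructor
  · rintro ⟨⟨h1, _, h3⟩, h4⟩
    exact ⟨h1, h4, h3⟩
  · rintro ⟨h1, h4, h3⟩
    exact ⟨⟨h1, by exact_mod_cast h4.trans hy, h3⟩, h4⟩

theorem sum_nu_pr {ε : ℝ} (hε : 0 < ε) : ∃ N₀ : ℕ, ∀ X : ℕ, N₀ ≤ X → ∀ y : ℝ, 1 ≤ y → y ≤ X →
    |∑ q ∈ (RO (zz X) X).filter (fun q : ℕ => (q : ℝ) ≤ y), nu q - Vz (zz X) * Real.log y| ≤
      ε * (Vz (zz X) * Real.log X) := by
  obtain ⟨N₀, h⟩ := rsum_asymp hε
  refine ⟨N₀, fun X hX y hy hyX => ?_⟩
  rw [sum_filter_RO (by linarith) hyX]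
  exact h X hX y hy hyX

open Classical in
theorem sum_abel (z : ℕ) (y : ℝ) :
    (∑ q ∈ RO z ⌊y⌋₊, nu q * Real.log q = Real.log y * ∑ q ∈ RO z ⌊y⌋₊, nu q -
      ∫ t in Set.Ioc 1 y, t⁻¹ * ∑ q ∈ RO z ⌊t⌋₊, nu q) ∧
      IntegrableOn (fun t : ℝ => t⁻¹ * ∑ q ∈ RO z ⌊t⌋₊, nu q) (Set.Ioc 1 y) := by
  set c : ℕ → ℝ := fun k => if 1 ≤ k ∧ rough z k then nu k else 0 with hc
  have hc0 : c 0 = 0 := by simp [hc]
  have hsum : ∀ (g : ℕ → ℝ) (m : ℕ), ∑ k ∈ Finset.Icc 0 m, g k * c k =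
      ∑ q ∈ RO z m, g q * nu q := by
    intro g m
    have h1 : RO z m = (Finset.Icc 0 m).filter (fun k => 1 ≤ k ∧ rough z k) := by
      ext k
      rw [GDL_mem_RO, Finset.mem_filter, Finset.mem_Icc]
      constructor
      · rintro ⟨h1, h2, h3⟩
        exact ⟨⟨Nat.zero_le _, h2⟩, h1, h3⟩
      · rintro ⟨⟨_, h2⟩, h1, h3⟩
        exact ⟨h1, h2, h3⟩
    rw [h1, Finset.sum_filter]
    refine Finset.sum_congr rfl fun k _ => ?_
    simp only [hc]
    split_ifs <;> simp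
  have hsum1 : ∀ m : ℕ, ∑ k ∈ Finset.Icc 0 m, c k = ∑ q ∈ RO z m, nu q := by
    intro m
    have := hsum (fun _ => 1) m
    simpa using this
  have hd : ∀ t ∈ Set.Icc (1 : ℝ) y, DifferentiableAt ℝ Real.log t := fun t ht =>
    Real.differentiableAt_log (by linarith [ht.1])
  have hder : deriv Real.log = fun t : ℝ => t⁻¹ := by
    ext t
    exact Real.deriv_log t
  have hint : IntegrableOn (fun t : ℝ => t⁻¹) (Set.Icc 1 y) :=
    (ContinuousOn.integrableOn_Icc (ContinuousOn.inv₀ continuousOn_id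
      fun t ht => ne_of_gt (lt_of_lt_of_le one_pos ht.1)))
  have h2 := sum_mul_eq_sub_integral_mul₀ (f := Real.log) c hc0 y hd (by rw [hder]; exact hint)
  have h3 := integrableOn_mul_sum_Icc c (m := 0) zero_le_one hint
  rw [hsum (fun k => Real.log k)] at h2
  simp only [hsum1, hder] at h2 h3
  refine ⟨?_, h3.mono_set Set.Ioc_subset_Icc_self⟩
  rw [← h2]
  exact Finset.sum_congr rfl fun q _ => mul_comm _ _

theorem sum_logint {y : ℝ} (hy : 1 ≤ y) :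
    (∫ t in Set.Ioc 1 y, t⁻¹ * Real.log t = Real.log y ^ 2 / 2) ∧
      (∫ t in Set.Ioc 1 y, t⁻¹ = Real.log y) ∧
      IntegrableOn (fun t : ℝ => t⁻¹ * Real.log t) (Set.Ioc 1 y) ∧
      IntegrableOn (fun t : ℝ => t⁻¹) (Set.Ioc 1 y) := by
  have h0 : ∀ t ∈ Set.uIcc 1 y, t ≠ 0 := fun t ht => by
    rw [Set.uIcc_of_le hy] at ht
    linarith [ht.1]
  have hc1 : ContinuousOn (fun t : ℝ => t⁻¹) (Set.uIcc 1 y) :=
    ContinuousOn.inv₀ continuousOn_id h0
  have hc2 : ContinuousOn (fun t : ℝ => t⁻¹ * Real.log t) (Set.uIcc 1 y) :=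
    hc1.mul (ContinuousOn.log continuousOn_id h0)
  have i1 : IntervalIntegrable (fun t : ℝ => t⁻¹) volume 1 y := hc1.intervalIntegrable
  have i2 : IntervalIntegrable (fun t : ℝ => t⁻¹ * Real.log t) volume 1 y :=
    hc2.intervalIntegrable
  rw [← intervalIntegral.integral_of_le hy, ← intervalIntegral.integral_of_le hy]
  refine ⟨?_, ?_, ?_, ?_⟩
  · have h1 : ∀ t ∈ Set.uIcc 1 y, HasDerivAt (fun t : ℝ => Real.log t ^ 2 / 2)
        (t⁻¹ * Real.log t) t := by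
      intro t ht
      have h2 := ((Real.hasDerivAt_log (h0 t ht)).pow 2).div_const 2
      refine h2.congr_deriv ?_
      simp
      ring
    rw [intervalIntegral.integral_eq_sub_of_hasDerivAt h1 i2]
    simp
  · rw [integral_inv_of_pos one_pos (by linarith), div_one]
  · exact (intervalIntegrable_iff_integrableOn_Ioc_of_le hy).1 i2
  · exact (intervalIntegrable_iff_integrableOn_Ioc_of_le hy).1 i1

theorem sum_log_pr {ε : ℝ} (hε : 0 < ε) : ∃ N₀ : ℕ, ∀ X : ℕ, N₀ ≤ X → ∀ y : ℝ, 1 ≤ y → y ≤ X →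
    |∑ q ∈ (RO (zz X) X).filter (fun q : ℕ => (q : ℝ) ≤ y), nu q * Real.log q -
      Vz (zz X) * (Real.log y ^ 2 / 2)| ≤ ε * (Vz (zz X) * Real.log X ^ 2) := by
  obtain ⟨N₀, h⟩ := rsum_asymp (half_pos hε)
  refine ⟨N₀, fun X hX y hy hyX => ?_⟩
  rw [sum_filter_RO (by linarith) hyX]
  set V := Vz (zz X) with hV
  have hV0 : 0 < V := phi_Vz_pos (zz X)
  have hX1 : (1 : ℝ) ≤ X := hy.trans hyX
  have hlX : 0 ≤ Real.log X := Real.log_nonneg hX1
  have hly : 0 ≤ Real.log y := Real.log_nonneg hy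
  have hlyX : Real.log y ≤ Real.log X := Real.log_le_log (by linarith) hyX
  obtain ⟨h1, h2⟩ := sum_abel (zz X) y
  obtain ⟨h3, h4, h5, h6⟩ := sum_logint hy
  have h7 : ∀ t : ℝ, 1 ≤ t → t ≤ X →
      |∑ q ∈ RO (zz X) ⌊t⌋₊, nu q - V * Real.log t| ≤ ε / 2 * (V * Real.log X) :=
    fun t ht htX => h X hX t ht htX
  have h8 : |(∫ t in Set.Ioc 1 y, t⁻¹ * ∑ q ∈ RO (zz X) ⌊t⌋₊, nu q) -
      V * (Real.log y ^ 2 / 2)| ≤ ε / 2 * (V * Real.log X) * Real.log y := by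
    rw [← h3, ← h4, ← integral_const_mul, ← integral_sub h2 (h5.const_mul V),
      ← integral_const_mul, ← Real.norm_eq_abs]
    refine norm_integral_le_of_norm_le (h6.const_mul _) ?_
    refine (ae_restrict_mem measurableSet_Ioc).mono fun t ht => ?_
    have ht0 : (0 : ℝ) < t := by linarith [ht.1]
    rw [show t⁻¹ * ∑ q ∈ RO (zz X) ⌊t⌋₊, nu q - V * (t⁻¹ * Real.log t) =
      (∑ q ∈ RO (zz X) ⌊t⌋₊, nu q - V * Real.log t) * t⁻¹ by ring, norm_mul,
      Real.norm_eq_abs, Real.norm_eq_abs, abs_of_pos (inv_pos.2 ht0)]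
    exact mul_le_mul_of_nonneg_right (h7 t ht.1.le (ht.2.trans hyX)) (inv_pos.2 ht0).le
  have h9 := h7 y hy hyX
  rw [h1]
  have h10 : Real.log y * ∑ q ∈ RO (zz X) ⌊y⌋₊, nu q -
      (∫ t in Set.Ioc 1 y, t⁻¹ * ∑ q ∈ RO (zz X) ⌊t⌋₊, nu q) - V * (Real.log y ^ 2 / 2) =
      Real.log y * (∑ q ∈ RO (zz X) ⌊y⌋₊, nu q - V * Real.log y) -
      ((∫ t in Set.Ioc 1 y, t⁻¹ * ∑ q ∈ RO (zz X) ⌊t⌋₊, nu q) -
      V * (Real.log y ^ 2 / 2)) := by ring
  rw [h10]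
  have h11 : |Real.log y * (∑ q ∈ RO (zz X) ⌊y⌋₊, nu q - V * Real.log y)| ≤
      Real.log y * (ε / 2 * (V * Real.log X)) := by
    rw [abs_mul, abs_of_nonneg hly]
    exact mul_le_mul_of_nonneg_left h9 hly
  have h12 : Real.log y * (V * Real.log X) ≤ V * Real.log X ^ 2 := by
    calc Real.log y * (V * Real.log X) ≤ Real.log X * (V * Real.log X) :=
          mul_le_mul_of_nonneg_right hlyX (by positivity)
      _ = V * Real.log X ^ 2 := by ring
  calc |_| ≤ _ := abs_sub _ _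
    _ ≤ Real.log y * (ε / 2 * (V * Real.log X)) + ε / 2 * (V * Real.log X) * Real.log y :=
        add_le_add h11 h8
    _ = ε * (Real.log y * (V * Real.log X)) := by ring
    _ ≤ ε * (V * Real.log X ^ 2) := mul_le_mul_of_nonneg_left h12 hε.le

theorem sum_nu_nonneg {q : ℕ} (hq : 1 ≤ q) : 0 ≤ nu q :=
  div_nonneg (sq_nonneg _) (GDL_phi_pos hq).le

open Classical in
/-- the sum over a band -/
theorem sum_band {C : ℝ} (hC : 0 ≤ C) {z X : ℕ} {V L e ε a b : ℝ} (hV : 0 < V) (hL : 0 ≤ L)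
    (he : 0 ≤ e) (hε : 0 ≤ ε) (ha : 0 < a) (hab : a ≤ b) (hbX : b ≤ X)
    (hlog : Real.log b = Real.log a + ε * L)
    (h : ∀ y : ℝ, 1 ≤ y → y ≤ X → |∑ q ∈ RO z ⌊y⌋₊, nu q - V * Real.log y| ≤ e * (V * L)) :
    ∑ q ∈ RO z X, nu q * (if a < q ∧ (q : ℝ) ≤ b then C else 0) ≤
      C * ((ε + 2 * e) * (V * L)) := by
  have h0 : ∑ q ∈ RO z X, nu q * (if a < q ∧ (q : ℝ) ≤ b then C else 0) =
      C * ∑ q ∈ (RO z X).filter (fun q : ℕ => a < q ∧ (q : ℝ) ≤ b), nu q := by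
    rw [Finset.mul_sum, Finset.sum_filter]
    refine Finset.sum_congr rfl fun q _ => ?_
    split_ifs <;> ring
  rw [h0]
  refine mul_le_mul_of_nonneg_left ?_ hC
  have hVL : 0 ≤ V * L := by positivity
  rcases lt_or_ge b 1 with hb | hb
  · have h1 : (RO z X).filter (fun q : ℕ => a < q ∧ (q : ℝ) ≤ b) = ∅ := by
      refine Finset.filter_eq_empty_iff.2 fun q hq h2 => ?_
      have h3 := (GDL_mem_RO.1 hq).1
      have h4 : (1 : ℝ) ≤ q := by exact_mod_cast h3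
      linarith [h2.2]
    rw [h1, Finset.sum_empty]
    positivity
  · have hb2 := (abs_le.1 (h b hb hbX)).2
    rcases lt_or_ge a 1 with ha1 | ha1
    · have h1 : ∑ q ∈ (RO z X).filter (fun q : ℕ => a < q ∧ (q : ℝ) ≤ b), nu q ≤
          ∑ q ∈ RO z ⌊b⌋₊, nu q := by
        rw [← sum_filter_RO (by linarith) hbX]
        refine Finset.sum_le_sum_of_subset_of_nonneg ?_ fun q hq _ =>
          sum_nu_nonneg (GDL_mem_RO.1 (Finset.mem_filter.1 hq).1).1
        intro q hq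
        rw [Finset.mem_filter] at hq ⊢
        exact ⟨hq.1, hq.2.2⟩
      have h2 : Real.log a ≤ 0 := Real.log_nonpos ha.le ha1.le
      have h3 : V * Real.log b ≤ V * (ε * L) := mul_le_mul_of_nonneg_left (by linarith) hV.le
      have h4 : 0 ≤ e * (V * L) := by positivity
      nlinarith
    · have ha2 := (abs_le.1 (h a ha1 (hab.trans hbX))).1
      have h1 : ∑ q ∈ (RO z X).filter (fun q : ℕ => a < q ∧ (q : ℝ) ≤ b), nu q +
          ∑ q ∈ RO z ⌊a⌋₊, nu q = ∑ q ∈ RO z ⌊b⌋₊, nu q := by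
        rw [← sum_filter_RO (by linarith) hbX, ← sum_filter_RO (by linarith) (hab.trans hbX),
          ← Finset.sum_union]
        · refine Finset.sum_congr ?_ fun _ _ => rfl
          ext q
          rw [Finset.mem_union, Finset.mem_filter, Finset.mem_filter, Finset.mem_filter]
          constructor
          · rintro (⟨h1, h2⟩ | ⟨h1, h2⟩)
            · exact ⟨h1, h2.2⟩
            · exact ⟨h1, h2.trans hab⟩
          · rintro ⟨h1, h2⟩
            rcases lt_or_ge a q with h3 | h3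
            · exact Or.inl ⟨h1, h3, h2⟩
            · exact Or.inr ⟨h1, h3⟩
        · rw [Finset.disjoint_filter]
          intro q _ h1 h2
          linarith [h1.1]
      rw [hlog] at hb2
      nlinarith

theorem err_sum_pr {C : ℝ} (hC : 0 ≤ C) {δ : ℝ} (h0 : -(1 / 4) < δ) (h1 : δ < 1 / 4) {ε : ℝ}
    (hε : 0 < ε) (hε1 : ε ≤ 1) : ∃ X₀ : ℕ, ∀ X : ℕ, X₀ ≤ X → ∀ s : ℝ, 1 ≤ s →
    ∑ q ∈ RO (zz X) X, nu q * erP C ε δ X (s * q) ≤
      (8 + 8 * C) * ε * (Vz (zz X) * Real.log X) := by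
  classical
  obtain ⟨N₀, h⟩ := rsum_asymp hε
  refine ⟨max 2 N₀, fun X hX s hs => ?_⟩
  have hX2 : 2 ≤ X := (le_max_left _ _).trans hX
  have hXr : (2 : ℝ) ≤ X := by exact_mod_cast hX2
  have hX0 : (0 : ℝ) < X := by linarith
  have hX1 : (1 : ℝ) ≤ X := by linarith
  have hL : 0 < Real.log X := Real.log_pos (by linarith)
  have hV := phi_Vz_pos (zz X)
  have hVL : 0 < Vz (zz X) * Real.log X := mul_pos hV hL
  have hh : ∀ y : ℝ, 1 ≤ y → y ≤ X → |∑ q ∈ RO (zz X) ⌊y⌋₊, nu q - Vz (zz X) * Real.log y| ≤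
      ε * (Vz (zz X) * Real.log X) := fun y hy hyX => h X ((le_max_right _ _).trans hX) y hy hyX
  set M : ℝ := (MM δ X : ℝ) with hM
  have hM1 : 1 ≤ M := by
    have h2 : (1 : ℝ) ≤ (X : ℝ) ^ (1 / 2 - δ) := Real.one_le_rpow hX1 (by linarith)
    have h3 : 1 ≤ MM δ X := (Nat.one_le_floor_iff _).2 h2
    rw [hM]
    exact_mod_cast h3
  have hMX : M ≤ X := by
    calc M ≤ (X : ℝ) ^ (1 / 2 - δ) := Nat.floor_le (by positivity)
      _ ≤ (X : ℝ) ^ (1 : ℝ) := Real.rpow_le_rpow_of_exponent_le hX1 (by linarith)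
      _ = X := Real.rpow_one _
  have hs0 : 0 < s := by linarith
  have hXe : 0 < (X : ℝ) ^ (-ε) := Real.rpow_pos_of_pos hX0 _
  have hXe1 : (X : ℝ) ^ (-ε) ≤ 1 := Real.rpow_le_one_of_one_le_of_nonpos hX1 (by linarith)
  set b : ℝ := M / s with hb
  set a : ℝ := M * (X : ℝ) ^ (-ε) / s with ha
  have hM0 : 0 < M := by linarith
  have ha0 : 0 < a := by positivity
  have hb0 : 0 < b := by positivity
  have hab : a ≤ b := by
    rw [ha, hb]
    refine div_le_div_of_nonneg_right ?_ hs0.le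
    calc M * (X : ℝ) ^ (-ε) ≤ M * 1 := mul_le_mul_of_nonneg_left hXe1 hM0.le
      _ = M := mul_one _
  have hbX : b ≤ X := by
    rw [hb]
    exact (div_le_self hM0.le hs).trans hMX
  have hlog : Real.log b = Real.log a + ε * Real.log X := by
    have h2 : a = b * (X : ℝ) ^ (-ε) := by
      rw [ha, hb]
      ring
    rw [h2, Real.log_mul hb0.ne' hXe.ne', Real.log_rpow hX0]
    ring
  have hband := sum_band hC hV hL.le hε.le hε.le ha0 hab hbX hlog hh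
  have hfirst : ∑ q ∈ RO (zz X) X, nu q * (if s * q ≤ 2 * MM δ X then ε else 0) ≤
      ε * (2 * (Vz (zz X) * Real.log X)) := by
    have h2 : ∑ q ∈ RO (zz X) X, nu q * (if s * q ≤ 2 * MM δ X then ε else 0) ≤
        ε * ∑ q ∈ RO (zz X) X, nu q := by
      rw [Finset.mul_sum]
      refine Finset.sum_le_sum fun q hq => ?_
      have h3 := sum_nu_nonneg (GDL_mem_RO.1 hq).1
      split_ifs
      · exact (mul_comm _ _).le
      · rw [mul_zero]
        positivity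
    refine h2.trans (mul_le_mul_of_nonneg_left ?_ hε.le)
    have h3 := (abs_le.1 (hh X hX1 le_rfl)).2
    rw [Nat.floor_natCast] at h3
    nlinarith
  have hsplit : ∑ q ∈ RO (zz X) X, nu q * erP C ε δ X (s * q) =
      ∑ q ∈ RO (zz X) X, nu q * (if s * q ≤ 2 * MM δ X then ε else 0) +
      ∑ q ∈ RO (zz X) X, nu q * (if a < q ∧ (q : ℝ) ≤ b then C else 0) := by
    rw [← Finset.sum_add_distrib]
    refine Finset.sum_congr rfl fun q _ => ?_
    have h2 : ((MM δ X : ℝ) * (X : ℝ) ^ (-ε) < s * q ∧ s * q ≤ MM δ X) ↔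
        (a < q ∧ (q : ℝ) ≤ b) := by
      rw [ha, hb, div_lt_iff₀ hs0, le_div_iff₀ hs0, mul_comm (q : ℝ) s]
    rw [erP, mul_add]
    congr 2
    exact if_congr h2 rfl rfl
  rw [hsplit]
  have h3 : C * ((ε + 2 * ε) * (Vz (zz X) * Real.log X)) =
      3 * (C * (ε * (Vz (zz X) * Real.log X))) := by ring
  rw [h3] at hband
  have h4 : 0 ≤ ε * (Vz (zz X) * Real.log X) := by positivity
  have h5 : 0 ≤ C * (ε * (Vz (zz X) * Real.log X)) := mul_nonneg hC h4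
  nlinarith

end Pool.Agent.LSP
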